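import Mathlib
import Pool.Agent.V1138.FZ.Res
import Pool.Agent.V1138.FZ.Many

/-!
# Values of the homogenized cyclotomic polynomials
-/

set_option autoImplicit false

namespace Pool.Agent.V1138.AT

open Polynomial

/-- the sum of the primitive roots of unity -/
theorem sum_prim (n : ℕ) (hn : 0 < n) : ‖∑ ζ ∈ primitiveRoots n ℂ, ζ‖ ≤ 1 := by
  classical
  have h1 : ∀ n : ℕ, 0 < n → ∑ i ∈ n.divisors, ∑ ζ ∈ primitiveRoots i ℂ, ζ =
      if n = 1 then (1 : ℂ) else 0 := by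
    intro n hn
    have : NeZero n := ⟨hn.ne'⟩
    have hprim := Complex.isPrimitiveRoot_exp n hn.ne'
    rw [← Finset.sum_biUnion]
    · rw [← IsPrimitiveRoot.nthRoots_one_eq_biUnion_primitiveRoots]
      split_ifs with h
      · subst h
        have h2 : nthRootsFinset 1 (1 : ℂ) = {1} := by
          ext z
          rw [mem_nthRootsFinset one_pos, pow_one, Finset.mem_singleton]
        rw [h2, Finset.sum_singleton]
      · have h2 : 1 < n := by omega
        have h3 : ∑ ζ ∈ nthRootsFinset n (1 : ℂ), ζ =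
            ∑ i ∈ Finset.range n, Complex.exp (2 * Real.pi * Complex.I / n) ^ i := by
          symm
          refine Finset.sum_bij (fun i _ => Complex.exp (2 * Real.pi * Complex.I / n) ^ i) ?_ ?_ ?_ ?_
          · intro i _
            rw [mem_nthRootsFinset hn, ← pow_mul, mul_comm i n, pow_mul, hprim.pow_eq_one, one_pow]
          · intro i hi j hj hij
            exact hprim.pow_inj (Finset.mem_range.1 hi) (Finset.mem_range.1 hj) hij
          · intro ζ hζ
            obtain ⟨i, hi, hiζ⟩ := hprim.eq_pow_of_pow_eq_one ((mem_nthRootsFinset hn _).1 hζ)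
            exact ⟨i, Finset.mem_range.2 hi, hiζ⟩
          · intro i _
            rfl
        rw [h3]
        exact hprim.geom_sum_eq_zero h2
    · intro i _ j _ hij
      exact IsPrimitiveRoot.disjoint hij
  have h2 := (ArithmeticFunction.sum_eq_iff_sum_mul_moebius_eq
    (f := fun i => ∑ ζ ∈ primitiveRoots i ℂ, ζ) (g := fun n => if n = 1 then (1 : ℂ) else 0)).1
    h1 n hn
  rw [← h2, Finset.sum_eq_single (n, 1)]
  · rw [if_pos rfl, mul_one]
    rcases ArithmeticFunction.moebius_eq_or n with h | h | h <;> rw [h] <;> simp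
  · rintro ⟨x, y⟩ hxy hne
    rw [Nat.mem_divisorsAntidiagonal] at hxy
    have h3 : y ≠ 1 := by
      rintro rfl
      apply hne
      rw [mul_one] at hxy
      have h4 : x = n := hxy.1
      rw [h4]
    show _ * (if y = 1 then (1 : ℂ) else 0) = 0
    rw [if_neg h3, mul_zero]
  · intro h
    exact absurd (Nat.mem_divisorsAntidiagonal.2 ⟨mul_one n, hn.ne'⟩) h

theorem low (a b : ℤ) (ha : a ≠ 0) (hb : b ≠ 0) (hab : |a| ≠ |b|) (n : ℕ) (hn : 0 < n) :
    (3 : ℝ) ^ (n.totient - 1) ≤ (∏ ζ ∈ primitiveRoots n ℂ, ‖(a : ℂ) - b * ζ‖) ^ 2 := by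
  classical
  have haR : (1 : ℝ) ≤ |(a : ℝ)| := by
    have := Int.one_le_abs ha
    exact_mod_cast this
  have hbR : (1 : ℝ) ≤ |(b : ℝ)| := by
    have := Int.one_le_abs hb
    exact_mod_cast this
  have hne : (1 : ℝ) ≤ |(|(a : ℝ)| - |(b : ℝ)|)| := by
    have h1 : |a| - |b| ≠ 0 := sub_ne_zero.2 hab
    have h2 := Int.one_le_abs h1
    exact_mod_cast h2
  set A : ℝ := (|(a : ℝ)| + |(b : ℝ)|) ^ 2 with hA
  set B : ℝ := (|(a : ℝ)| - |(b : ℝ)|) ^ 2 with hB
  have hB1 : 1 ≤ B := by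
    rw [hB, ← sq_abs]
    nlinarith
  have hA9 : 9 ≤ A := by
    have h1 : 3 ≤ |(a : ℝ)| + |(b : ℝ)| := by
      have h2 : (3 : ℤ) ≤ |a| + |b| := by
        have h3 := Int.one_le_abs ha
        have h4 := Int.one_le_abs hb
        omega
      exact_mod_cast h2
    rw [hA]
    nlinarith
  obtain ⟨e, he, heab⟩ : ∃ e : ℝ, |e| = 1 ∧ (a : ℝ) * b = e * (|(a : ℝ)| * |(b : ℝ)|) := by
    rcases le_total 0 ((a : ℝ) * b) with h | h
    · exact ⟨1, abs_one, by rw [one_mul, ← abs_mul, abs_of_nonneg h]⟩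
    · exact ⟨-1, by rw [abs_neg, abs_one], by rw [← abs_mul, abs_of_nonpos h]; ring⟩
  have hkey : ∀ ζ ∈ primitiveRoots n ℂ, A ^ ((1 - e * ζ.re) / 2) * B ^ ((1 + e * ζ.re) / 2) ≤
      ‖(a : ℂ) - b * ζ‖ ^ 2 := by
    intro ζ hζ
    have h1 : ‖ζ‖ = 1 := ((mem_primitiveRoots hn).1 hζ).norm'_eq_one hn.ne'
    have hre : |e * ζ.re| ≤ 1 := by
      rw [abs_mul, he, one_mul]
      exact (Complex.abs_re_le_norm ζ).trans h1.le
    have h2 : ‖(a : ℂ) - b * ζ‖ ^ 2 = (1 - e * ζ.re) / 2 * A + (1 + e * ζ.re) / 2 * B := by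
      rw [← Complex.normSq_eq_norm_sq, Complex.normSq_apply]
      have h3 : ζ.re * ζ.re + ζ.im * ζ.im = 1 := by
        rw [← Complex.normSq_apply, Complex.normSq_eq_norm_sq, h1, one_pow]
      simp only [Complex.sub_re, Complex.sub_im, Complex.mul_re, Complex.mul_im, Complex.intCast_re,
        Complex.intCast_im, zero_mul, sub_zero, add_zero, zero_sub]
      rw [hA, hB]
      have h4 : |(a : ℝ)| ^ 2 = (a : ℝ) ^ 2 := sq_abs _
      have h5 : |(b : ℝ)| ^ 2 = (b : ℝ) ^ 2 := sq_abs _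
      linear_combination ((b : ℝ) ^ 2) * h3 - 2 * ζ.re * heab - h4 - h5
    rw [h2]
    have h3 := abs_le.1 hre
    exact Real.geom_mean_le_arith_mean2_weighted (by linarith) (by linarith) (by linarith)
      (by linarith) (by ring)
  have hsum : |∑ ζ ∈ primitiveRoots n ℂ, e * ζ.re| ≤ 1 := by
    rw [← Finset.mul_sum, abs_mul, he, one_mul, ← Complex.re_sum]
    exact (Complex.abs_re_le_norm _).trans (sum_prim n hn)
  have hcard : (primitiveRoots n ℂ).card = n.totient :=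
    (Complex.isPrimitiveRoot_exp n hn.ne').card_primitiveRoots
  have hφ : 1 ≤ n.totient := Nat.totient_pos.2 hn
  have hφR : (1 : ℝ) ≤ n.totient := by exact_mod_cast hφ
  set W : ℝ := ∑ ζ ∈ primitiveRoots n ℂ, e * ζ.re with hW
  have hW1 := abs_le.1 hsum
  have hprod : A ^ (((n.totient : ℝ) - W) / 2) * B ^ (((n.totient : ℝ) + W) / 2) ≤
      (∏ ζ ∈ primitiveRoots n ℂ, ‖(a : ℂ) - b * ζ‖) ^ 2 := by
    rw [← Finset.prod_pow]
    refine le_trans (le_of_eq ?_) (Finset.prod_le_prod (fun ζ _ => by positivity) hkey)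
    rw [Finset.prod_mul_distrib, ← Real.rpow_sum_of_pos (by linarith),
      ← Real.rpow_sum_of_pos (by linarith), ← Finset.sum_div, ← Finset.sum_div,
      Finset.sum_sub_distrib, Finset.sum_add_distrib, Finset.sum_const, hcard, nsmul_eq_mul, mul_one]
  refine le_trans ?_ hprod
  have h1 : 1 ≤ B ^ (((n.totient : ℝ) + W) / 2) := Real.one_le_rpow hB1 (by linarith)
  have h2 : (3 : ℝ) ^ (n.totient - 1) ≤ A ^ (((n.totient : ℝ) - W) / 2) := by
    calc (3 : ℝ) ^ (n.totient - 1) = (9 : ℝ) ^ (((n.totient - 1 : ℕ) : ℝ) / 2) := by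
          rw [show (9 : ℝ) = 3 ^ (2 : ℝ) by norm_num, ← Real.rpow_mul (by norm_num),
            mul_div_cancel₀ _ (by norm_num : (2 : ℝ) ≠ 0), Real.rpow_natCast]
      _ ≤ A ^ (((n.totient - 1 : ℕ) : ℝ) / 2) :=
          Real.rpow_le_rpow (by norm_num) hA9 (by positivity)
      _ ≤ A ^ (((n.totient : ℝ) - W) / 2) := by
          refine Real.rpow_le_rpow_of_exponent_le (by linarith) ?_
          rw [Nat.cast_sub hφ, Nat.cast_one]
          linarith
  calc (3 : ℝ) ^ (n.totient - 1) ≤ A ^ (((n.totient : ℝ) - W) / 2) := h2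
    _ = A ^ (((n.totient : ℝ) - W) / 2) * 1 := (mul_one _).symm
    _ ≤ _ := mul_le_mul_of_nonneg_left h1 (by positivity)

/-- the polynomial `a - b X` -/
noncomputable def lp (a b : ℤ) : ℤ[X] := C a - C b * X

theorem lp_deg (a : ℤ) {b : ℤ} (hb : b ≠ 0) : (lp a b).natDegree = 1 := by
  have h : lp a b = C (-b) * X + C a := by
    rw [lp, C_neg]
    ring
  rw [h]
  exact natDegree_linear (neg_ne_zero.2 hb)

theorem res_lin {R : Type*} [CommRing R] (a : ℤ) {b : ℤ} (hb : b ≠ 0) (n : ℕ) (x : R)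
    (hx : (b : R) * x = (a : R)) : ((resultant (lp a b) (cyclotomic n ℤ) : ℤ) : R) =
      (-(b : R)) ^ n.totient * eval x (cyclotomic n R) := by
  nontriviality R
  have h1 : ((resultant (lp a b) (cyclotomic n ℤ) : ℤ) : R) =
      resultant ((lp a b).map (Int.castRingHom R)) (cyclotomic n R) 1 n.totient := by
    rw [← map_cyclotomic n (Int.castRingHom R), resultant_map_map, lp_deg a hb,
      natDegree_cyclotomic]
    rfl
  have h2 : (lp a b).map (Int.castRingHom R) = C (-(b : R)) * (X - C x) := by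
    rw [lp, Polynomial.map_sub, Polynomial.map_mul, map_C, map_C, map_X, eq_intCast, eq_intCast,
      ← hx]
    simp only [C_neg, C_mul]
    ring
  rw [h1, h2, resultant_C_mul_left, resultant_X_sub_C_left _ _ _ (natDegree_cyclotomic n R).le]

theorem res_smul (g a : ℤ) {b : ℤ} (hg : g ≠ 0) (hb : b ≠ 0) (n : ℕ) :
    resultant (lp (g * a) (g * b)) (cyclotomic n ℤ) =
      g ^ n.totient * resultant (lp a b) (cyclotomic n ℤ) := by
  have h : lp (g * a) (g * b) = C g * lp a b := by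
    rw [lp, lp, C_mul, C_mul]
    ring
  have h2 : (cyclotomic n ℤ).natDegree = n.totient := natDegree_cyclotomic n ℤ
  rw [lp_deg _ (mul_ne_zero hg hb), h, resultant_C_mul_left, lp_deg _ hb, h2]

theorem res_abs (a : ℤ) {b : ℤ} (hb : b ≠ 0) (n : ℕ) (hn : 0 < n) :
    ‖((resultant (lp a b) (cyclotomic n ℤ) : ℤ) : ℂ)‖ =
      ∏ ζ ∈ primitiveRoots n ℂ, ‖(a : ℂ) - b * ζ‖ := by
  have hbC : (b : ℂ) ≠ 0 := by exact_mod_cast hb
  have hprim := Complex.isPrimitiveRoot_exp n hn.ne'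
  rw [res_lin a hb n ((a : ℂ) / b) (by field_simp), norm_mul, norm_pow, norm_neg,
    cyclotomic_eq_prod_X_sub_primitiveRoots hprim, eval_prod, norm_prod,
    ← hprim.card_primitiveRoots, ← Finset.prod_const, ← Finset.prod_mul_distrib]
  refine Finset.prod_congr rfl fun ζ _ => ?_
  rw [eval_sub, eval_X, eval_C, ← norm_mul]
  congr 1
  field_simp

/-- uniform version: homogenized values of cyclotomic polynomials have large prime factors -/
theorem big (D : ℕ) : ∃ N : ℕ, 0 < N ∧ ∀ n : ℕ, N ≤ n → ∀ U V : ℤ, U ≠ 0 → V ≠ 0 → |U| ≠ |V| →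
    ∃ p : ℕ, p.Prime ∧ D < p ∧ (p : ℤ) ∣ resultant (lp U V) (cyclotomic n ℤ) := by
  classical
  obtain ⟨k, hk⟩ := pow_unbounded_of_one_lt ((D.factorial : ℝ) ^ 2) (by norm_num : (1 : ℝ) < 3)
  obtain ⟨N₁, hN₁0, hN₁⟩ := FZ.totient_large (k + 1)
  refine ⟨max N₁ (D ^ 2 + 1), lt_of_lt_of_le hN₁0 (le_max_left _ _), fun n hn U V hU hV hUV => ?_⟩
  have hn1 : N₁ ≤ n := le_trans (le_max_left _ _) hn
  have hn2 : D ^ 2 + 1 ≤ n := le_trans (le_max_right _ _) hn
  have hn0 : 0 < n := by omega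
  obtain ⟨a, ha⟩ : (Int.gcd U V : ℤ) ∣ U := Int.gcd_dvd_left ..
  obtain ⟨b, hb⟩ : (Int.gcd U V : ℤ) ∣ V := Int.gcd_dvd_right ..
  set g : ℤ := (Int.gcd U V : ℤ) with hg
  have hg0 : g ≠ 0 := by
    intro h
    rw [h, zero_mul] at ha
    exact hU ha
  have hcop : Int.gcd a b = 1 := by
    have h1 : Int.gcd (g * a) (g * b) = g.natAbs * Int.gcd a b := Int.gcd_mul_left ..
    rw [← ha, ← hb] at h1
    have h2 : g.natAbs = Int.gcd U V := by rw [hg, Int.natAbs_natCast]
    rw [h2] at h1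
    have h3 : 0 < Int.gcd U V := by
      rw [← h2]
      exact Int.natAbs_pos.2 hg0
    exact (Nat.eq_of_mul_eq_mul_left h3 (by rw [mul_one]; exact h1)).symm
  have ha0 : a ≠ 0 := by
    rintro rfl
    rw [mul_zero] at ha
    exact hU ha
  have hb0 : b ≠ 0 := by
    rintro rfl
    rw [mul_zero] at hb
    exact hV hb
  have hab : |a| ≠ |b| := by
    intro h
    apply hUV
    rw [ha, hb, abs_mul, abs_mul, h]
  by_contra hc
  push Not at hc
  set R : ℤ := resultant (lp a b) (cyclotomic n ℤ) with hR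
  have hc' : ∀ p : ℕ, p.Prime → D < p → ¬ (p : ℤ) ∣ R := by
    intro p hp hpD hd
    apply hc p hp hpD
    rw [ha, hb, res_smul g a hg0 hb0]
    exact Dvd.dvd.mul_left hd _
  have hlow := low a b ha0 hb0 hab n hn0
  rw [← res_abs a hb0 n hn0, ← hR] at hlow
  have h3k : (3 : ℝ) ^ k ≤ (3 : ℝ) ^ (n.totient - 1) :=
    pow_le_pow_right₀ (by norm_num) (by have := hN₁ n hn1; omega)
  have hR0 : R ≠ 0 := by
    intro h
    rw [h, Int.cast_zero, norm_zero] at hlow
    have : (0 : ℝ) < 3 ^ (n.totient - 1) := by positivity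
    norm_num at hlow
    linarith
  have hsq : ∀ p : ℕ, p.Prime → p ≤ D → ¬ ((p ^ 2 : ℕ) : ℤ) ∣ R := by
    intro p hp hpD hd
    have hfact : Fact p.Prime := ⟨hp⟩
    have hpb : ¬ (p : ℤ) ∣ b := by
      intro hpb
      have hpR : (p : ℤ) ∣ resultant (lp a b) (cyclotomic n ℤ) := by
        refine dvd_trans ?_ hd
        push_cast
        exact dvd_pow_self _ two_ne_zero
      obtain ⟨z, -, hz0⟩ := FZ.common_zero p hpR
      have hk : CharP (AlgebraicClosure (ZMod p)) p := inferInstance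
      rw [lp, map_sub, map_mul, aeval_C, aeval_C, aeval_X, eq_intCast, eq_intCast,
        (CharP.intCast_eq_zero_iff (AlgebraicClosure (ZMod p)) p b).2 hpb, zero_mul, sub_zero,
        CharP.intCast_eq_zero_iff (AlgebraicClosure (ZMod p)) p a] at hz0
      have h1 : p ∣ Int.gcd a b := Nat.dvd_gcd (Int.natCast_dvd.1 hz0) (Int.natCast_dvd.1 hpb)
      rw [hcop] at h1
      exact hp.one_lt.ne' (Nat.dvd_one.1 h1)
    have hne : NeZero (p ^ 2) := ⟨pow_ne_zero 2 hp.ne_zero⟩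
    have hbu : IsUnit ((b : ℤ) : ZMod (p ^ 2)) := by
      rw [ZMod.coe_int_isUnit_iff_isCoprime]
      push_cast
      exact IsCoprime.pow_left ((Nat.prime_iff_prime_int.1 hp).coprime_iff_not_dvd.2 hpb)
    obtain ⟨u, hu⟩ := hbu
    have h1 := res_lin (R := ZMod (p ^ 2)) a hb0 n (((u⁻¹ : (ZMod (p ^ 2))ˣ) : ZMod (p ^ 2)) * (a : ZMod (p ^ 2)))
      (by rw [← hu, ← mul_assoc, Units.mul_inv, one_mul])
    rw [← hR, (ZMod.intCast_zmod_eq_zero_iff_dvd R (p ^ 2)).2 hd, ← hu] at h1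
    have h2 : eval (((u⁻¹ : (ZMod (p ^ 2))ˣ) : ZMod (p ^ 2)) * (a : ZMod (p ^ 2))) (cyclotomic n (ZMod (p ^ 2))) = 0 := by
      have h3 : IsUnit ((-(u : ZMod (p ^ 2))) ^ n.totient) := (u.isUnit.neg).pow _
      exact (h3.mul_right_eq_zero).1 h1.symm
    have h4 := FZ.order_eq hn0 h2 (by
      intro l hl h0
      have h5 : p ^ 2 ∣ l := (ZMod.natCast_eq_zero_iff l (p ^ 2)).1 h0
      have h6 := (Nat.dvd_prime hl).1 (dvd_trans (dvd_pow_self p two_ne_zero) h5)
      rcases h6 with h6 | h6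
      · exact hp.one_lt.ne' h6
      · rw [← h6] at h5
        have h7 := Nat.le_of_dvd hp.pos h5
        have h8 := hp.two_le
        nlinarith)
    have h5 : orderOf (((u⁻¹ : (ZMod (p ^ 2))ˣ) : ZMod (p ^ 2)) * (a : ZMod (p ^ 2))) ≤ Fintype.card (ZMod (p ^ 2)) :=
      orderOf_le_card_univ
    rw [h4, ZMod.card] at h5
    have h6 : p ^ 2 ≤ D ^ 2 := Nat.pow_le_pow_left hpD 2
    omega
  have hdvd : R.natAbs ∣ D.factorial := by
    refine (Nat.factorization_prime_le_iff_dvd (Int.natAbs_ne_zero.2 hR0)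
      (Nat.factorial_ne_zero D)).1 fun p hpp => ?_
    by_cases hpD : p ≤ D
    · have h4 : R.natAbs.factorization p ≤ 1 := by
        by_contra h5
        push Not at h5
        apply hsq p hpp hpD
        exact Int.natCast_dvd.2 ((hpp.pow_dvd_iff_le_factorization
          (Int.natAbs_ne_zero.2 hR0)).2 h5)
      exact h4.trans (hpp.factorization_pos_of_dvd (Nat.factorial_ne_zero D)
        ((hpp.dvd_factorial).2 hpD))
    · have h3 : ¬ p ∣ R.natAbs := fun h4 => hc' p hpp (by omega) (Int.natCast_dvd.2 h4)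
      rw [Nat.factorization_eq_zero_of_not_dvd h3]
      exact Nat.zero_le _
  have h2 := Nat.le_of_dvd (Nat.factorial_pos D) hdvd
  have h3 : ‖((R : ℤ) : ℂ)‖ = (R.natAbs : ℝ) := by
    rw [Complex.norm_intCast, Nat.cast_natAbs, Int.cast_abs]
  have h4 : (R.natAbs : ℝ) ≤ D.factorial := by exact_mod_cast h2
  rw [h3] at hlow
  have h5 : (R.natAbs : ℝ) ^ 2 ≤ (D.factorial : ℝ) ^ 2 := by gcongr
  linarith

end Pool.Agent.V1138.AT
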