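import Mathlib
import Pool.Agent.V1138.AT.Lin
import Pool.Agent.V1138.KR.Many

/-!
# The numbers `q + r ζ`: the values of the minimal polynomials have large prime factors
-/

set_option autoImplicit false

namespace Pool.Agent.V1138.AT

open Polynomial NumberField IsDedekindDomain
open Pool.Agent.Helper259.AbsHt
open Pool.Agent.Y556.TW (Ov mem_Ov bad_finite GS GS_fg mem_GS unit_eq)
open Pool.Agent.V1138.BO (LocN inv_locN)
open Pool.Agent.V1138.KR (of_den_dvd loc_mono exists_qbar)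
open Pool.Agent.Y152.BD (Nv)

/-- the numerator of `α - q` -/
def UU (q α : ℚ) : ℤ := α.num * q.den - α.den * q.num

/-- the common denominator, times `r` -/
def VV (q : ℚ) (r : ℤ) (α : ℚ) : ℤ := α.den * (q.den * r)

theorem VV_ne {q : ℚ} {r : ℤ} (hr : r ≠ 0) (α : ℚ) : VV q r α ≠ 0 := by
  have h1 : ((α.den : ℕ) : ℤ) ≠ 0 := by exact_mod_cast α.den_ne_zero
  have h2 : ((q.den : ℕ) : ℤ) ≠ 0 := by exact_mod_cast q.den_ne_zero
  exact mul_ne_zero h1 (mul_ne_zero h2 hr)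

theorem UU_eq {F : Type*} [Field F] [CharZero F] (q α : ℚ) :
    (UU q α : F) = (α.den : F) * q.den * ((α : F) - q) := by
  have h1 : (α : F) * (α.den : F) = (α.num : F) := by
    exact_mod_cast congrArg (Rat.cast : ℚ → F) (Rat.mul_den_eq_num α)
  have h2 : (q : F) * (q.den : F) = (q.num : F) := by
    exact_mod_cast congrArg (Rat.cast : ℚ → F) (Rat.mul_den_eq_num q)
  rw [UU]
  push_cast
  rw [← h1, ← h2]
  ring

theorem exists_N (A₁ A₂ A₃ : ℚ) (D : ℕ) : ∃ N : ℕ, N ≠ 0 ∧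
    (∀ p : ℕ, p.Prime → p ≤ D → p ∣ N) ∧ (LocN N A₁ ∧ LocN N A₁⁻¹) ∧ (LocN N A₂ ∧ LocN N A₂⁻¹) ∧
      (LocN N A₃ ∧ LocN N A₃⁻¹) := by
  set N : ℕ := D.factorial * (A₁.den * A₁⁻¹.den * (A₂.den * A₂⁻¹.den) * (A₃.den * A₃⁻¹.den))
    with hN
  have hd : ∀ A : ℚ, A.den ≠ 0 := fun A => A.den_ne_zero
  have hN0 : N ≠ 0 := by
    rw [hN]
    exact mul_ne_zero (Nat.factorial_ne_zero D) (mul_ne_zero (mul_ne_zero (mul_ne_zero (hd _) (hd _))
      (mul_ne_zero (hd _) (hd _))) (mul_ne_zero (hd _) (hd _)))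
  have key : ∀ A : ℚ, A.den ∣ N → LocN N A := fun A hA => of_den_dvd hN0 (k := 1) (by rwa [pow_one])
  refine ⟨N, hN0, fun p hp hpD => Dvd.dvd.mul_right ((hp.dvd_factorial).2 hpD) _, ⟨?_, ?_⟩,
    ⟨?_, ?_⟩, ⟨?_, ?_⟩⟩ <;> refine key _ ?_ <;> rw [hN] <;> refine Dvd.dvd.mul_left ?_ _
  · exact Dvd.dvd.mul_right (Dvd.dvd.mul_right (dvd_mul_right _ _) _) _
  · exact Dvd.dvd.mul_right (Dvd.dvd.mul_right (dvd_mul_left _ _) _) _
  · exact Dvd.dvd.mul_right (Dvd.dvd.mul_left (dvd_mul_right _ _) _) _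
  · exact Dvd.dvd.mul_right (Dvd.dvd.mul_left (dvd_mul_left _ _) _) _
  · exact Dvd.dvd.mul_left (dvd_mul_right _ _) _
  · exact Dvd.dvd.mul_left (dvd_mul_left _ _) _

theorem small (ζ : Qbar) (n : ℕ) (hn : 0 < n) (hζ : aeval ζ (cyclotomic n ℤ) = 0) (α₁ α₂ α₃ : ℚ)
    (h12 : α₁ ≠ α₂) (h13 : α₁ ≠ α₃) (h23 : α₂ ≠ α₃) (D : ℕ) :
    {t : Qbar | ∃ (q : ℚ) (r : ℤ), r ≠ 0 ∧ t = q + r * ζ ∧ ∀ α ∈ ({α₁, α₂, α₃} : Set ℚ),
      ∀ p : ℕ, p.Prime → D < p →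
        ¬ (p : ℤ) ∣ resultant (lp (UU q α) (VV q r α)) (cyclotomic n ℤ)}.Finite := by
  classical
  set A₁ : ℚ := (α₂ - α₃) / α₁.den with hA₁
  set A₂ : ℚ := (α₃ - α₁) / α₂.den with hA₂
  set A₃ : ℚ := (α₁ - α₂) / α₃.den with hA₃
  have hd : ∀ α : ℚ, (α.den : ℚ) ≠ 0 := fun α => by exact_mod_cast α.den_ne_zero
  have hA₁0 : A₁ ≠ 0 := div_ne_zero (sub_ne_zero.2 h23) (hd _)
  have hA₂0 : A₂ ≠ 0 := div_ne_zero (sub_ne_zero.2 h13.symm) (hd _)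
  have hA₃0 : A₃ ≠ 0 := div_ne_zero (sub_ne_zero.2 h12) (hd _)
  obtain ⟨N₀, hN₀, hND, ⟨hA₁l, hA₁i⟩, ⟨hA₂l, hA₂i⟩, ⟨hA₃l, hA₃i⟩⟩ := exists_N A₁ A₂ A₃ D
  have hint : ∀ x ∈ ({ζ} : Set Qbar), IsIntegral ℚ x := fun x _ =>
    ((AlgebraicClosure.isAlgebraic ℚ).isAlgebraic x).isIntegral
  let K : IntermediateField ℚ Qbar := IntermediateField.adjoin ℚ {ζ}
  have hfd : FiniteDimensional ℚ K := IntermediateField.finiteDimensional_adjoin hint
  have hNF : NumberField K := { to_charZero := inferInstance, to_finiteDimensional := hfd }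
  have hK1 : ζ ∈ K := IntermediateField.subset_adjoin ℚ _ (by simp)
  have hKN : ((N₀ : ℕ) : Qbar) ∈ K := natCast_mem K N₀
  let s : Set Qbar := {ζ, ((N₀ : ℕ) : Qbar)⁻¹}
  have hs : s.Finite := by
    simp only [s]
    exact Set.toFinite _
  have hsK : ∀ w ∈ s, w ∈ K := by
    intro w hw
    simp only [s, Set.mem_insert_iff, Set.mem_singleton_iff] at hw
    rcases hw with rfl | rfl
    · exact hK1
    · exact K.inv_mem hKN
  obtain ⟨S, hSd⟩ : ∃ S : Set (HeightOneSpectrum (𝓞 K)), S = {v | ∃ w ∈ s, w ∉ Ov v} := ⟨_, rfl⟩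
  have hS : S.Finite := by
    rw [hSd]
    exact bad_finite s hs hsK
  have hgood : ∀ v, v ∉ S → ∀ w ∈ s, w ∈ Ov v := by
    intro v hv w hw
    by_contra hc
    apply hv
    rw [hSd]
    exact ⟨w, hw, hc⟩
  have hfin := unit_eq (GS S) (GS_fg S hS)
  refine Set.Finite.of_finite_image (f := fun t : Qbar =>
    -((((α₂ - α₃ : ℚ) : Qbar) * (α₁ - t)) / (((α₁ - α₂ : ℚ) : Qbar) * (α₃ - t)))) (hfin.subset ?_) ?_
  · rintro _ ⟨t, ⟨q, r, hr, ht, hbad⟩, rfl⟩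
    -- the three units
    have hy : ∀ α ∈ ({α₁, α₂, α₃} : Set ℚ), ∃ y : Qbar, y ≠ 0 ∧ y ∈ K ∧
        y = (α.den : Qbar) * q.den * ((α : Qbar) - t) ∧ ∀ v, v ∉ S → y ∈ Ov v ∧ y⁻¹ ∈ Ov v := by
      intro α hα
      set U : ℤ := UU q α with hU
      set V : ℤ := VV q r α with hV
      have hV0 : V ≠ 0 := VV_ne hr α
      obtain ⟨a, b, -, -, hab⟩ := exists_mul_add_mul_eq_C_resultant (lp U V) (cyclotomic n ℤ)
        (m := (lp U V).natDegree) (n := (cyclotomic n ℤ).natDegree) le_rfl le_rfl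
        (Or.inl (by rw [lp_deg U hV0]; exact one_ne_zero))
      set R : ℤ := resultant (lp U V) (cyclotomic n ℤ) with hR
      have hres := hbad α hα
      rw [← hR] at hres
      have hR0 : R ≠ 0 := by
        intro h0
        obtain ⟨p, hpD, hp⟩ := Nat.exists_infinite_primes (D + 1)
        exact hres p hp (by omega) (by rw [h0]; exact dvd_zero _)
      have hRQ : ((R : ℤ) : Qbar) ≠ 0 := by exact_mod_cast hR0
      have h1 := congrArg (aeval ζ) hab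
      rw [map_add, map_mul, map_mul, hζ, zero_mul, add_zero, aeval_C, lp, map_sub, map_mul, aeval_C,
        aeval_C, aeval_X] at h1
      have h2 : ((U : Qbar) - V * ζ) * aeval ζ a = (R : Qbar) := by simpa using h1
      have hy0 : (U : Qbar) - V * ζ ≠ 0 := by
        intro h0
        rw [h0, zero_mul] at h2
        exact hRQ h2.symm
      refine ⟨(U : Qbar) - V * ζ, hy0, K.sub_mem (intCast_mem K U) (K.mul_mem (intCast_mem K V) hK1),
        ?_, ?_⟩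
      · rw [hU, UU_eq, hV, VV, ht]
        push_cast
        ring
      · intro v hv
        have hNv : ((N₀ : ℕ) : Qbar)⁻¹ ∈ Ov v := hgood v hv _ (by simp [s])
        have hζv : ζ ∈ Ov v := hgood v hv _ (by simp [s])
        refine ⟨(Ov v).sub_mem (intCast_mem _ _) ((Ov v).mul_mem (intCast_mem _ _) hζv), ?_⟩
        have h3 : ((U : Qbar) - V * ζ)⁻¹ = aeval ζ a * (((R : ℚ)⁻¹ : ℚ) : Qbar) := by
          push_cast
          rw [← h2]
          have h4 : aeval ζ a ≠ 0 := by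
            intro h0
            rw [h0, mul_zero] at h2
            exact hRQ h2.symm
          field_simp
        rw [h3]
        refine (Ov v).mul_mem ?_ ((inv_locN hN₀ hND R hR0 hres).mem _ hNv)
        rw [aeval_eq_sum_range]
        refine Subring.sum_mem _ fun i _ => ?_
        rw [zsmul_eq_mul]
        exact (Ov v).mul_mem (intCast_mem _ _) ((Ov v).pow_mem hζv i)
    obtain ⟨y₁, hy₁0, hy₁K, hy₁e, hy₁⟩ := hy α₁ (by simp)
    obtain ⟨y₂, hy₂0, hy₂K, hy₂e, hy₂⟩ := hy α₂ (by simp)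
    obtain ⟨y₃, hy₃0, hy₃K, hy₃e, hy₃⟩ := hy α₃ (by simp)
    have hQ : ∀ A : ℚ, A ≠ 0 → ((A : ℚ) : Qbar) ≠ 0 := fun A hA => by exact_mod_cast hA
    have hdQ : ∀ α : ℚ, ((α.den : ℕ) : Qbar) ≠ 0 := fun α => by exact_mod_cast α.den_ne_zero
    have hmem : ∀ (A : ℚ) (y : Qbar), A ≠ 0 → LocN N₀ A → LocN N₀ A⁻¹ → y ≠ 0 → y ∈ K →
        (∀ v, v ∉ S → y ∈ Ov v ∧ y⁻¹ ∈ Ov v) → ∀ v, v ∉ S →
          ((A : Qbar) * y ∈ Ov v ∧ ((A : Qbar) * y)⁻¹ ∈ Ov v) := by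
      intro A y hA hAl hAi hy0 hyK hyv v hv
      have hNv : ((N₀ : ℕ) : Qbar)⁻¹ ∈ Ov v := hgood v hv _ (by simp [s])
      refine ⟨(Ov v).mul_mem (hAl.mem _ hNv) (hyv v hv).1, ?_⟩
      rw [mul_inv, ← Rat.cast_inv]
      exact (Ov v).mul_mem (hAi.mem _ hNv) (hyv v hv).2
    have h1 := hmem A₁ y₁ hA₁0 hA₁l hA₁i hy₁0 hy₁K hy₁
    have h2 := hmem A₂ y₂ hA₂0 hA₂l hA₂i hy₂0 hy₂K hy₂
    have h3 := hmem A₃ y₃ hA₃0 hA₃l hA₃i hy₃0 hy₃K hy₃
    have hz₁ : (A₁ : Qbar) * y₁ ≠ 0 := mul_ne_zero (hQ _ hA₁0) hy₁0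
    have hz₂ : (A₂ : Qbar) * y₂ ≠ 0 := mul_ne_zero (hQ _ hA₂0) hy₂0
    have hz₃ : (A₃ : Qbar) * y₃ ≠ 0 := mul_ne_zero (hQ _ hA₃0) hy₃0
    have hratK : ∀ A : ℚ, ((A : ℚ) : Qbar) ∈ K := fun A => SubfieldClass.ratCast_mem K A
    have hgs : ∀ (z w : Qbar) (hz : z ≠ 0) (hw : w ≠ 0), z ∈ K → w ∈ K →
        (∀ v, v ∉ S → z ∈ Ov v ∧ z⁻¹ ∈ Ov v) → (∀ v, v ∉ S → w ∈ Ov v ∧ w⁻¹ ∈ Ov v) →
        Units.mk0 (-(z / w)) (neg_ne_zero.2 (div_ne_zero hz hw)) ∈ GS S := by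
      intro z w hz hw hzK hwK hzv hwv
      refine mem_GS _ (K.neg_mem (K.div_mem hzK hwK)) fun v hv => ?_
      refine ⟨?_, ?_⟩
      · rw [div_eq_mul_inv]
        exact (Ov v).neg_mem ((Ov v).mul_mem (hzv v hv).1 (hwv v hv).2)
      · rw [div_eq_mul_inv, inv_neg, mul_inv, inv_inv]
        exact (Ov v).neg_mem ((Ov v).mul_mem (hzv v hv).2 (hwv v hv).1)
    have hg₁ := hgs _ _ hz₁ hz₃ (K.mul_mem (hratK _) hy₁K) (K.mul_mem (hratK _) hy₃K) h1 h3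
    have hg₂ := hgs _ _ hz₂ hz₃ (K.mul_mem (hratK _) hy₂K) (K.mul_mem (hratK _) hy₃K) h2 h3
    have hq0 := hdQ q
    have e₁ : (A₁ : Qbar) * y₁ = q.den * (((α₂ - α₃ : ℚ) : Qbar) * (α₁ - t)) := by
      have := hdQ α₁
      rw [hy₁e, hA₁]
      push_cast
      field_simp
    have e₂ : (A₂ : Qbar) * y₂ = q.den * (((α₃ - α₁ : ℚ) : Qbar) * (α₂ - t)) := by
      have := hdQ α₂
      rw [hy₂e, hA₂]
      push_cast
      field_simp
    have e₃ : (A₃ : Qbar) * y₃ = q.den * (((α₁ - α₂ : ℚ) : Qbar) * (α₃ - t)) := by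
      have := hdQ α₃
      rw [hy₃e, hA₃]
      push_cast
      field_simp
    refine ⟨_, hg₁, _, hg₂, ?_, ?_⟩
    · rw [Units.val_mk0, e₁, e₃, mul_div_mul_left _ _ hq0]
    · rw [Units.val_mk0, Units.val_mk0]
      have hsum : (A₁ : Qbar) * y₁ + A₂ * y₂ + A₃ * y₃ = 0 := by
        rw [e₁, e₂, e₃]
        push_cast
        ring
      have h4 : -((A₁ : Qbar) * y₁ / (A₃ * y₃)) + -((A₂ : Qbar) * y₂ / (A₃ * y₃)) =
          -(((A₁ : Qbar) * y₁ + A₂ * y₂) / (A₃ * y₃)) := by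
        rw [add_div, neg_add]
      rw [h4]
      have h5 : (A₁ : Qbar) * y₁ + A₂ * y₂ = -(A₃ * y₃) := by
        linear_combination hsum
      rw [h5, neg_div, div_self hz₃, neg_neg]
  · have hne : ∀ t ∈ {t : Qbar | ∃ (q : ℚ) (r : ℤ), r ≠ 0 ∧ t = q + r * ζ ∧
        ∀ α ∈ ({α₁, α₂, α₃} : Set ℚ), ∀ p : ℕ, p.Prime → D < p →
        ¬ (p : ℤ) ∣ resultant (lp (UU q α) (VV q r α)) (cyclotomic n ℤ)}, (α₃ : Qbar) - t ≠ 0 := by
      rintro t ⟨q, r, hr, ht, hbad⟩ h0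
      set U : ℤ := UU q α₃ with hU
      set V : ℤ := VV q r α₃ with hV
      have hV0 : V ≠ 0 := VV_ne hr α₃
      obtain ⟨a, b, -, -, hab⟩ := exists_mul_add_mul_eq_C_resultant (lp U V) (cyclotomic n ℤ)
        (m := (lp U V).natDegree) (n := (cyclotomic n ℤ).natDegree) le_rfl le_rfl
        (Or.inl (by rw [lp_deg U hV0]; exact one_ne_zero))
      set R : ℤ := resultant (lp U V) (cyclotomic n ℤ) with hR
      have h1 := congrArg (aeval ζ) hab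
      rw [map_add, map_mul, map_mul, hζ, zero_mul, add_zero, aeval_C, lp, map_sub, map_mul, aeval_C,
        aeval_C, aeval_X] at h1
      have h2 : ((U : Qbar) - V * ζ) * aeval ζ a = (R : Qbar) := by simpa using h1
      have h3 : (U : Qbar) - V * ζ = (α₃.den : Qbar) * q.den * ((α₃ : Qbar) - t) := by
        rw [hU, UU_eq, hV, VV, ht]
        push_cast
        ring
      rw [h3, h0, mul_zero, zero_mul] at h2
      have h4 : R = 0 := by exact_mod_cast h2.symm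
      obtain ⟨p, hpD, hp⟩ := Nat.exists_infinite_primes (D + 1)
      exact hbad α₃ (by simp) p hp (by omega) (by rw [← hR, h4]; exact dvd_zero _)
    intro t ht t' ht' he
    have h1 := hne t ht
    have h2 := hne t' ht'
    have h23' : ((α₂ - α₃ : ℚ) : Qbar) ≠ 0 := by exact_mod_cast sub_ne_zero.2 h23
    have h12' : ((α₁ - α₂ : ℚ) : Qbar) ≠ 0 := by exact_mod_cast sub_ne_zero.2 h12
    have h13' : (α₁ : Qbar) - α₃ ≠ 0 := by
      have : ((α₁ - α₃ : ℚ) : Qbar) ≠ 0 := by exact_mod_cast sub_ne_zero.2 h13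
      rwa [Rat.cast_sub] at this
    have he' : -((((α₂ - α₃ : ℚ) : Qbar) * (α₁ - t)) / (((α₁ - α₂ : ℚ) : Qbar) * (α₃ - t))) =
      -((((α₂ - α₃ : ℚ) : Qbar) * (α₁ - t')) / (((α₁ - α₂ : ℚ) : Qbar) * (α₃ - t'))) := he
    rw [neg_inj, div_eq_div_iff (mul_ne_zero h12' h1) (mul_ne_zero h12' h2)] at he'
    have h3 : ((α₂ - α₃ : ℚ) : Qbar) * ((α₁ - α₂ : ℚ) : Qbar) * (((α₁ : Qbar) - α₃) * (t - t')) = 0 := by
      linear_combination he'
    have h4 := (mul_eq_zero.1 h3).resolve_left (mul_ne_zero h23' h12')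
    exact sub_eq_zero.1 ((mul_eq_zero.1 h4).resolve_left h13')

end Pool.Agent.V1138.AT
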