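import Mathlib
import Pool.Agent.V1138.AT.Many

/-!
# The numbers `q + r ζ`: the arithmetic input
-/

set_option autoImplicit false

namespace Pool.Agent.V1138.AT

open Polynomial
open Pool.Agent.V1138.KR (exists_qbar)
open Pool.Agent.V1138.FZ (near exists_irr)
open Pool.Agent.Y152.BD (Nv)

theorem smallC (ζ : ℂ) (n : ℕ) (hn : 0 < n) (hζ : IsPrimitiveRoot ζ n) (α₁ α₂ α₃ : ℚ)
    (h12 : α₁ ≠ α₂) (h13 : α₁ ≠ α₃) (h23 : α₂ ≠ α₃) (D : ℕ) :
    {t : ℂ | ∃ (q : ℚ) (r : ℤ), r ≠ 0 ∧ t = q + r * ζ ∧ ∀ α ∈ ({α₁, α₂, α₃} : Set ℚ),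
      ∀ p : ℕ, p.Prime → D < p →
        ¬ (p : ℤ) ∣ resultant (lp (UU q α) (VV q r α)) (cyclotomic n ℤ)}.Finite := by
  have h1 : aeval ζ (cyclotomic n ℤ) = 0 := by
    rw [aeval_def, ← eval_map, map_cyclotomic]
    exact hζ.isRoot_cyclotomic hn
  obtain ⟨φ, β, hβ, hβ0⟩ := exists_qbar (cyclotomic_ne_zero n ℤ) h1
  refine ((small β n hn hβ0 α₁ α₂ α₃ h12 h13 h23 D).image φ).subset ?_
  rintro t ⟨q, r, hr, ht, hbad⟩
  refine ⟨q + r * β, ⟨q, r, hr, rfl, hbad⟩, ?_⟩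
  rw [map_add, map_mul, map_ratCast, map_intCast, hβ, ht]

theorem near' {G : ℤ[X]} {n : ℕ} (hn : 0 < n) {ζ t : ℂ} (hζ : IsPrimitiveRoot ζ n) (q : ℚ) (r : ℤ)
    (ht : t = q + r * ζ) (hGt : aeval t G = 0) (α : ℚ) (p : ℕ) (hp : p.Prime)
    (hd : (p : ℤ) ∣ resultant (lp (UU q α) (VV q r α)) (cyclotomic n ℤ)) :
    (p : ℤ) ∣ Nv G α := by
  have hqd : (q.den : ℂ) ≠ 0 := by exact_mod_cast q.den_ne_zero
  have hqq : (q : ℂ) * (q.den : ℂ) = (q.num : ℂ) := by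
    exact_mod_cast congrArg (Rat.cast : ℚ → ℂ) (Rat.mul_den_eq_num q)
  obtain ⟨u, v, huv⟩ : IsCoprime q.num (q.den : ℤ) :=
    Int.isCoprime_iff_gcd_eq_one.2 q.reduced
  refine near (P := C q.num + C ((q.den : ℤ) * r) * X) (Q := C (q.den : ℤ)) hn hζ ?_ ?_ hGt
    (a := C u) (b := C v - C (u * r) * X) (ρ := 1) ?_ α (h := lp (UU q α) (VV q r α)) ?_ p hp ?_ hd
  · rw [aeval_C]
    simp
  · rw [aeval_C, map_add, map_mul, aeval_C, aeval_C, aeval_X]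
    simp only [algebraMap_int_eq, eq_intCast, Int.cast_mul, Int.cast_natCast]
    rw [ht, ← hqq]
    field_simp
  · rw [← huv]
    simp only [C_add, C_mul]
    ring
  · refine dvd_of_eq ?_
    rw [lp, UU, VV]
    simp only [C_sub, C_mul]
    ring
  · intro h
    have h2 := Int.natCast_dvd.1 h
    exact hp.one_lt.ne' (Nat.dvd_one.1 h2)

/-- `t = q + r ζ` with a rational number `q`, a nonzero integer `r` and a root of unity `ζ` -/
def IsTr (t : ℂ) : Prop :=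
  ∃ (q : ℚ) (r : ℤ) (ζ : ℂ), r ≠ 0 ∧ (∃ n : ℕ, 0 < n ∧ ζ ^ n = 1) ∧ t = q + r * ζ

theorem alg_of_tr (t : ℂ) (h : IsTr t) : IsAlgebraic ℤ t := by
  obtain ⟨q, r, ζ, -, ⟨n, hn, hζ⟩, rfl⟩ := h
  have h1 : IsIntegral ℤ ζ := by
    refine ⟨X ^ n - C 1, monic_X_pow_sub_C 1 hn.ne', ?_⟩
    rw [eval₂_sub, eval₂_X_pow, hζ, eval₂_C, map_one, sub_self]
  have h2 : IsAlgebraic ℤ (q : ℂ) := by
    rw [Rat.cast_def, div_eq_mul_inv]
    exact (isAlgebraic_intCast _).mul (isAlgebraic_natCast _).inv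
  exact h2.add ((isAlgebraic_intCast r).mul h1.isAlgebraic)

theorem three (q : ℚ) (r : ℤ) (α : ℚ) (h : UU q α = 0 ∨ |UU q α| = |VV q r α|) :
    α = q ∨ α = q + r ∨ α = q - r := by
  have h1 : (UU q α : ℚ) = (α.den : ℚ) * q.den * ((α : ℚ) - q) := by
    have := UU_eq (F := ℚ) q α
    simpa using this
  have h2 : (VV q r α : ℚ) = (α.den : ℚ) * q.den * r := by
    rw [VV]
    push_cast
    ring
  have hd : (α.den : ℚ) * q.den ≠ 0 := mul_ne_zero (by exact_mod_cast α.den_ne_zero)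
    (by exact_mod_cast q.den_ne_zero)
  rcases h with h | h
  · left
    rw [h, Int.cast_zero] at h1
    exact sub_eq_zero.1 ((mul_eq_zero.1 h1.symm).resolve_left hd)
  · rcases abs_eq_abs.1 h with h | h
    · right; left
      have h3 : (UU q α : ℚ) = (VV q r α : ℚ) := by rw [h]
      rw [h1, h2] at h3
      have h4 := mul_left_cancel₀ hd h3
      linarith
    · right; right
      have h3 : (UU q α : ℚ) = -(VV q r α : ℚ) := by rw [h, Int.cast_neg]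
      rw [h1, h2, ← mul_neg] at h3
      have h4 := mul_left_cancel₀ hd h3
      linarith

/-- For all but finitely many of the numbers `t = q + r ζ` the values of the minimal polynomial at
all but three of the `α` have a large prime factor. -/
theorem finite_badA (D : ℕ) {M L : ℕ} (hM : L + 3 ≤ M) (α : Fin M → ℚ)
    (hα : Function.Injective α) :
    {t : ℂ | IsTr t ∧ ¬ ∃ f : Fin L → Fin M, Function.Injective f ∧
      ∃ G : ℤ[X], Irreducible G ∧ aeval t G = 0 ∧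
      ∀ l, ∃ p : ℕ, p.Prime ∧ D < p ∧ (p : ℤ) ∣ Nv G (α (f l))}.Finite := by
  classical
  obtain ⟨N, hN0, hN⟩ := big D
  have hfin : (⋃ n ∈ Finset.range N, ⋃ ζ ∈ primitiveRoots n ℂ, ⋃ l : Fin M × Fin M × Fin M,
      {t : ℂ | 0 < n ∧ l.1 ≠ l.2.1 ∧ l.1 ≠ l.2.2 ∧ l.2.1 ≠ l.2.2 ∧ ∃ (q : ℚ) (r : ℤ), r ≠ 0 ∧
        t = q + r * ζ ∧ ∀ a ∈ ({α l.1, α l.2.1, α l.2.2} : Set ℚ), ∀ p : ℕ, p.Prime → D < p →
        ¬ (p : ℤ) ∣ resultant (lp (UU q a) (VV q r a)) (cyclotomic n ℤ)}).Finite := by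
    refine Set.Finite.biUnion (Finset.finite_toSet _) fun n _ =>
      Set.Finite.biUnion (Finset.finite_toSet _) fun ζ hζ => Set.finite_iUnion fun l => ?_
    by_cases h : 0 < n ∧ l.1 ≠ l.2.1 ∧ l.1 ≠ l.2.2 ∧ l.2.1 ≠ l.2.2
    · obtain ⟨hn, h1, h2, h3⟩ := h
      refine (smallC ζ n hn ((mem_primitiveRoots hn).1 (Finset.mem_coe.1 hζ)) (α l.1) (α l.2.1)
        (α l.2.2) (hα.ne h1) (hα.ne h2) (hα.ne h3) D).subset ?_
      rintro t ⟨-, -, -, -, ht⟩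
      exact ht
    · refine Set.finite_empty.subset ?_
      rintro t ⟨h1, h2, h3, h4, -⟩
      exact h ⟨h1, h2, h3, h4⟩
  refine hfin.subset ?_
  rintro t ⟨htr, hbad⟩
  obtain ⟨G, hG, hGt⟩ := exists_irr (alg_of_tr t htr)
  obtain ⟨q, r, ζ, hr, ⟨m, hm, hζm⟩, ht⟩ := htr
  have hprim : IsPrimitiveRoot ζ (orderOf ζ) := IsPrimitiveRoot.orderOf _
  have hpos : 0 < orderOf ζ := orderOf_pos_iff.2 (isOfFinOrder_iff_pow_eq_one.2 ⟨m, hm, hζm⟩)
  set n := orderOf ζ with hn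
  set Gd : Finset (Fin M) := Finset.univ.filter fun l => ∃ p : ℕ, p.Prime ∧ D < p ∧
    (p : ℤ) ∣ Nv G (α l) with hGd
  have hGdL : Gd.card < L := by
    by_contra hc
    push Not at hc
    obtain ⟨T, hT, hTc⟩ := Finset.exists_subset_card_eq hc
    apply hbad
    refine ⟨fun l => T.orderEmbOfFin hTc l, (T.orderEmbOfFin hTc).injective, G, hG, hGt,
      fun l => ?_⟩
    have h1 := hT (T.orderEmbOfFin_mem hTc l)
    exact (Finset.mem_filter.1 h1).2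
  have hBd : 3 < Gdᶜ.card := by
    rw [Finset.card_compl, Fintype.card_fin]
    omega
  have hBdp : ∀ l ∈ Gdᶜ, ∀ p : ℕ, p.Prime → D < p →
      ¬ (p : ℤ) ∣ resultant (lp (UU q (α l)) (VV q r (α l))) (cyclotomic n ℤ) := by
    intro l hl p hp hpD hd
    rw [Finset.mem_compl] at hl
    apply hl
    exact Finset.mem_filter.2 ⟨Finset.mem_univ _, p, hp, hpD,
      near' hpos hprim q r ht hGt (α l) p hp hd⟩
  by_cases hnN : N ≤ n
  · exfalso
    have h1 : Gdᶜ.image α ⊆ {q, q + r, q - r} := by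
      intro a ha
      obtain ⟨l, hl, rfl⟩ := Finset.mem_image.1 ha
      have h2 : UU q (α l) = 0 ∨ |UU q (α l)| = |VV q r (α l)| := by
        by_contra hc
        push Not at hc
        obtain ⟨p, hp, hpD, hd⟩ := hN n hnN _ _ hc.1 (VV_ne hr (α l)) hc.2
        exact hBdp l hl p hp hpD hd
      rcases three q r (α l) h2 with h | h | h <;> simp [h]
    have h2 := Finset.card_le_card h1
    rw [Finset.card_image_of_injective _ hα] at h2
    have h3 : ({q, q + r, q - r} : Finset ℚ).card ≤ 3 := Finset.card_le_three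
    omega
  · obtain ⟨l₁, hl₁, l₂, hl₂, l₃, hl₃, h12, h13, h23⟩ : ∃ a ∈ Gdᶜ, ∃ b ∈ Gdᶜ, ∃ c ∈ Gdᶜ,
        a ≠ b ∧ a ≠ c ∧ b ≠ c := Finset.two_lt_card.1 (by omega)
    refine Set.mem_biUnion (Finset.mem_coe.2 (Finset.mem_range.2 (not_le.1 hnN))) ?_
    refine Set.mem_biUnion (Finset.mem_coe.2 ((mem_primitiveRoots hpos).2 hprim)) ?_
    refine Set.mem_iUnion.2 ⟨(l₁, l₂, l₃), hpos, h12, h13, h23, q, r, hr, ht, ?_⟩
    intro a ha
    simp only [Set.mem_insert_iff, Set.mem_singleton_iff] at ha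
    rcases ha with rfl | rfl | rfl
    · exact hBdp l₁ hl₁
    · exact hBdp l₂ hl₂
    · exact hBdp l₃ hl₃

end Pool.Agent.V1138.AT
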