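import Mathlib
import Pool.Agent.V1138.AT.Main

/-!
# The numbers `(a + b ζ) / (c + d ζ)`: the arithmetic input
-/

set_option autoImplicit false

namespace Pool.Agent.V1138.AT

open Polynomial NumberField IsDedekindDomain
open Pool.Agent.Helper259.AbsHt
open Pool.Agent.Y556.TW (Ov mem_Ov bad_finite GS GS_fg mem_GS unit_eq)
open Pool.Agent.V1138.BO (LocN inv_locN)
open Pool.Agent.V1138.KR (of_den_dvd loc_mono exists_qbar)
open Pool.Agent.V1138.FZ (exists_irr common_zero)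
open Pool.Agent.Y152.BD (Nv)

/-- `u c - v a` for `α = u / v` -/
def U4 (a c : ℤ) (α : ℚ) : ℤ := α.num * c - α.den * a

/-- `v b - u d` for `α = u / v` -/
def V4 (b d : ℤ) (α : ℚ) : ℤ := α.den * b - α.num * d

theorem UV4 {F : Type*} [Field F] [CharZero F] (a b c d : ℤ) (α : ℚ) (ζ : F)
    (hw : (c : F) + d * ζ ≠ 0) :
    (U4 a c α : F) - V4 b d α * ζ =
      (α.den : F) * (c + d * ζ) * ((α : F) - (a + b * ζ) / (c + d * ζ)) := by
  have h1 : (α : F) * (α.den : F) = (α.num : F) := by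
    exact_mod_cast congrArg (Rat.cast : ℚ → F) (Rat.mul_den_eq_num α)
  have h2 : (α.den : F) * (c + d * ζ) * ((α : F) - (a + b * ζ) / (c + d * ζ)) =
      (α : F) * α.den * (c + d * ζ) - α.den * (a + b * ζ) := by
    field_simp
  rw [h2, h1, U4, V4]
  push_cast
  ring

theorem near_m {P Q G h : ℤ[X]} {n : ℕ} (hn : 0 < n) {ζ t : ℂ} (hζ : IsPrimitiveRoot ζ n)
    (hQ : aeval ζ Q ≠ 0) (ht : t = aeval ζ P / aeval ζ Q) (hGt : aeval t G = 0)
    (α : ℚ) (hh : h ∣ C α.num * Q - C (α.den : ℤ) * P) (p : ℕ)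
    (hp : p.Prime) {k : Type} [Field k] [CharP k p] (z : k)
    (hz : eval z (cyclotomic n k) = 0) (hz0 : aeval z h = 0)
    (hne : aeval z Q = 0 → aeval z P ≠ 0) :
    (p : ℤ) ∣ Nv G α := by
  have h1 : cyclotomic n ℤ ∣ FZ.hcomp G P Q := by
    rw [cyclotomic_eq_minpoly hζ hn]
    refine minpoly.isIntegrallyClosed_dvd (hζ.isIntegral hn) ?_
    rw [FZ.aeval_hcomp]
    have h2 : ∀ i ∈ Finset.range (G.natDegree + 1), (G.coeff i : ℂ) * aeval ζ P ^ i *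
        aeval ζ Q ^ (G.natDegree - i) = aeval ζ Q ^ G.natDegree * ((G.coeff i : ℂ) * t ^ i) := by
      intro i hi
      rw [Finset.mem_range] at hi
      have h3 : aeval ζ P = t * aeval ζ Q := by
        rw [ht]
        field_simp
      have h4 : aeval ζ Q ^ G.natDegree = aeval ζ Q ^ i * aeval ζ Q ^ (G.natDegree - i) := by
        rw [← pow_add]
        congr 1
        omega
      rw [h4, h3, mul_pow]
      ring
    rw [Finset.sum_congr rfl h2, ← Finset.mul_sum]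
    have h5 : ∑ i ∈ Finset.range (G.natDegree + 1), (G.coeff i : ℂ) * t ^ i = aeval t G := by
      rw [aeval_eq_sum_range]
      simp [zsmul_eq_mul]
    rw [h5, hGt, mul_zero]
  have h2 : aeval z (FZ.hcomp G P Q) = 0 := by
    obtain ⟨q, hq⟩ := h1
    rw [hq, map_mul]
    have h3 : aeval z (cyclotomic n ℤ) = 0 := by
      rw [aeval_def, ← eval_map, map_cyclotomic]
      exact hz
    rw [h3, zero_mul]
  have h3 : (α.num : k) * aeval z Q = (α.den : k) * aeval z P := by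
    obtain ⟨q, hq⟩ := hh
    have h4 := congrArg (aeval z) hq
    rw [map_mul, hz0, zero_mul, map_sub, map_mul, map_mul, aeval_C, aeval_C, sub_eq_zero] at h4
    simpa using h4
  have hcop : (α.num : k) = 0 → (α.den : k) = 0 → False := by
    intro h4 h5
    have h6 : (p : ℤ) ∣ α.num := (CharP.intCast_eq_zero_iff k p _).1 h4
    have h7 : p ∣ α.den := (CharP.cast_eq_zero_iff k p _).1 h5
    have h8 : p ∣ Nat.gcd α.num.natAbs α.den := Nat.dvd_gcd (Int.natCast_dvd.1 h6) h7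
    rw [α.reduced] at h8
    exact hp.one_lt.ne' (Nat.dvd_one.1 h8)
  obtain ⟨l, hl, hlP, hlQ⟩ : ∃ l : k, l ≠ 0 ∧ aeval z P = l * (α.num : k) ∧
      aeval z Q = l * (α.den : k) := by
    by_cases hQz : aeval z Q = 0
    · have hPz : aeval z P ≠ 0 := hne hQz
      rw [hQz, mul_zero] at h3
      have h5 : (α.den : k) = 0 := by
        rcases mul_eq_zero.1 h3.symm with h6 | h6
        · exact h6
        · exact absurd h6 hPz
      have h6 : (α.num : k) ≠ 0 := fun h7 => hcop h7 h5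
      refine ⟨aeval z P / α.num, div_ne_zero hPz h6, ?_, ?_⟩
      · field_simp
      · rw [hQz, h5, mul_zero]
    · have h5 : (α.den : k) ≠ 0 := by
        intro h6
        rw [h6, zero_mul] at h3
        rcases mul_eq_zero.1 h3 with h7 | h7
        · exact hcop h7 h6
        · exact hQz h7
      refine ⟨aeval z Q / α.den, div_ne_zero hQz h5, ?_, ?_⟩
      · field_simp
        linear_combination -h3
      · field_simp
  rw [FZ.aeval_hcomp] at h2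
  have h4 : l ^ G.natDegree * ((Nv G α : ℤ) : k) = 0 := by
    rw [← h2, Nv, Int.cast_sum, Finset.mul_sum]
    refine Finset.sum_congr rfl fun i hi => ?_
    rw [Finset.mem_range] at hi
    have h5 : l ^ G.natDegree = l ^ i * l ^ (G.natDegree - i) := by
      rw [← pow_add]
      congr 1
      omega
    rw [h5, hlP, hlQ, mul_pow, mul_pow]
    push_cast
    ring
  rcases mul_eq_zero.1 h4 with h5 | h5
  · exact absurd h5 (pow_ne_zero _ hl)
  · exact (CharP.intCast_eq_zero_iff k p _).1 h5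

theorem smallM (ζ : Qbar) (n : ℕ) (hn : 0 < n) (hζ : aeval ζ (cyclotomic n ℤ) = 0) (α₁ α₂ α₃ : ℚ)
    (h12 : α₁ ≠ α₂) (h13 : α₁ ≠ α₃) (h23 : α₂ ≠ α₃) (D : ℕ) :
    {t : Qbar | ∃ a b c d : ℤ, (c : Qbar) + d * ζ ≠ 0 ∧ t = (a + b * ζ) / (c + d * ζ) ∧
      ∀ α ∈ ({α₁, α₂, α₃} : Set ℚ), ∀ p : ℕ, p.Prime → D < p →
        ¬ (p : ℤ) ∣ resultant (lp (U4 a c α) (V4 b d α)) (cyclotomic n ℤ)}.Finite := by
  classical
  set A₁ : ℚ := (α₂ - α₃) / α₁.den with hA₁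
  set A₂ : ℚ := (α₃ - α₁) / α₂.den with hA₂
  set A₃ : ℚ := (α₁ - α₂) / α₃.den with hA₃
  have hd : ∀ α : ℚ, (α.den : ℚ) ≠ 0 := fun α => by exact_mod_cast α.den_ne_zero
  have hA₁0 : A₁ ≠ 0 := div_ne_zero (sub_ne_zero.2 h23) (hd _)
  have hA₂0 : A₂ ≠ 0 := div_ne_zero (sub_ne_zero.2 h13.symm) (hd _)
  have hA₃0 : A₃ ≠ 0 := div_ne_zero (sub_ne_zero.2 h12) (hd _)
  obtain ⟨N₀, hN₀, hND, ⟨hA₁l, hA₁i⟩, ⟨hA₂l, hA₂i⟩, ⟨hA₃l, hA₃i⟩⟩ := exists_N A₁ A₂ A₃ D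
  have hint : ∀ x ∈ ({ζ} : Set Qbar), IsIntegral ℚ x := fun x _ =>
    ((AlgebraicClosure.isAlgebraic ℚ).isAlgebraic x).isIntegral
  let K : IntermediateField ℚ Qbar := IntermediateField.adjoin ℚ {ζ}
  have hfd : FiniteDimensional ℚ K := IntermediateField.finiteDimensional_adjoin hint
  have hNF : NumberField K := { to_charZero := inferInstance, to_finiteDimensional := hfd }
  have hK1 : ζ ∈ K := IntermediateField.subset_adjoin ℚ _ (by simp)
  have hKN : ((N₀ : ℕ) : Qbar) ∈ K := natCast_mem K N₀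
  let s : Set Qbar := {ζ, ((N₀ : ℕ) : Qbar)⁻¹}
  have hs : s.Finite := by
    simp only [s]
    exact Set.toFinite _
  have hsK : ∀ w ∈ s, w ∈ K := by
    intro w hw
    simp only [s, Set.mem_insert_iff, Set.mem_singleton_iff] at hw
    rcases hw with rfl | rfl
    · exact hK1
    · exact K.inv_mem hKN
  obtain ⟨S, hSd⟩ : ∃ S : Set (HeightOneSpectrum (𝓞 K)), S = {v | ∃ w ∈ s, w ∉ Ov v} := ⟨_, rfl⟩
  have hS : S.Finite := by
    rw [hSd]
    exact bad_finite s hs hsK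
  have hgood : ∀ v, v ∉ S → ∀ w ∈ s, w ∈ Ov v := by
    intro v hv w hw
    by_contra hc
    apply hv
    rw [hSd]
    exact ⟨w, hw, hc⟩
  have hfin := unit_eq (GS S) (GS_fg S hS)
  refine Set.Finite.of_finite_image (f := fun t : Qbar =>
    -((((α₂ - α₃ : ℚ) : Qbar) * (α₁ - t)) / (((α₁ - α₂ : ℚ) : Qbar) * (α₃ - t)))) (hfin.subset ?_) ?_
  · rintro _ ⟨t, ⟨a₀, b₀, c₀, d₀, hw, ht, hbad⟩, rfl⟩
    -- the three units
    have hy : ∀ α ∈ ({α₁, α₂, α₃} : Set ℚ), ∃ y : Qbar, y ≠ 0 ∧ y ∈ K ∧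
        y = (α.den : Qbar) * (c₀ + d₀ * ζ) * ((α : Qbar) - t) ∧ ∀ v, v ∉ S → y ∈ Ov v ∧ y⁻¹ ∈ Ov v := by
      intro α hα
      set U : ℤ := U4 a₀ c₀ α with hU
      set V : ℤ := V4 b₀ d₀ α with hV
      obtain ⟨a, b, -, -, hab⟩ := exists_mul_add_mul_eq_C_resultant (lp U V) (cyclotomic n ℤ)
        (m := (lp U V).natDegree) (n := (cyclotomic n ℤ).natDegree) le_rfl le_rfl
        (Or.inr (by rw [natDegree_cyclotomic]; exact (Nat.totient_pos.2 hn).ne'))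
      set R : ℤ := resultant (lp U V) (cyclotomic n ℤ) with hR
      have hres := hbad α hα
      rw [← hR] at hres
      have hR0 : R ≠ 0 := by
        intro h0
        obtain ⟨p, hpD, hp⟩ := Nat.exists_infinite_primes (D + 1)
        exact hres p hp (by omega) (by rw [h0]; exact dvd_zero _)
      have hRQ : ((R : ℤ) : Qbar) ≠ 0 := by exact_mod_cast hR0
      have h1 := congrArg (aeval ζ) hab
      rw [map_add, map_mul, map_mul, hζ, zero_mul, add_zero, aeval_C, lp, map_sub, map_mul, aeval_C,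
        aeval_C, aeval_X] at h1
      have h2 : ((U : Qbar) - V * ζ) * aeval ζ a = (R : Qbar) := by simpa using h1
      have hy0 : (U : Qbar) - V * ζ ≠ 0 := by
        intro h0
        rw [h0, zero_mul] at h2
        exact hRQ h2.symm
      refine ⟨(U : Qbar) - V * ζ, hy0, K.sub_mem (intCast_mem K U) (K.mul_mem (intCast_mem K V) hK1),
        ?_, ?_⟩
      · rw [hU, hV, ht]
        exact UV4 a₀ b₀ c₀ d₀ α ζ hw
      · intro v hv
        have hNv : ((N₀ : ℕ) : Qbar)⁻¹ ∈ Ov v := hgood v hv _ (by simp [s])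
        have hζv : ζ ∈ Ov v := hgood v hv _ (by simp [s])
        refine ⟨(Ov v).sub_mem (intCast_mem _ _) ((Ov v).mul_mem (intCast_mem _ _) hζv), ?_⟩
        have h3 : ((U : Qbar) - V * ζ)⁻¹ = aeval ζ a * (((R : ℚ)⁻¹ : ℚ) : Qbar) := by
          push_cast
          rw [← h2]
          have h4 : aeval ζ a ≠ 0 := by
            intro h0
            rw [h0, mul_zero] at h2
            exact hRQ h2.symm
          field_simp
        rw [h3]
        refine (Ov v).mul_mem ?_ ((inv_locN hN₀ hND R hR0 hres).mem _ hNv)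
        rw [aeval_eq_sum_range]
        refine Subring.sum_mem _ fun i _ => ?_
        rw [zsmul_eq_mul]
        exact (Ov v).mul_mem (intCast_mem _ _) ((Ov v).pow_mem hζv i)
    obtain ⟨y₁, hy₁0, hy₁K, hy₁e, hy₁⟩ := hy α₁ (by simp)
    obtain ⟨y₂, hy₂0, hy₂K, hy₂e, hy₂⟩ := hy α₂ (by simp)
    obtain ⟨y₃, hy₃0, hy₃K, hy₃e, hy₃⟩ := hy α₃ (by simp)
    have hQ : ∀ A : ℚ, A ≠ 0 → ((A : ℚ) : Qbar) ≠ 0 := fun A hA => by exact_mod_cast hA
    have hdQ : ∀ α : ℚ, ((α.den : ℕ) : Qbar) ≠ 0 := fun α => by exact_mod_cast α.den_ne_zero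
    have hmem : ∀ (A : ℚ) (y : Qbar), A ≠ 0 → LocN N₀ A → LocN N₀ A⁻¹ → y ≠ 0 → y ∈ K →
        (∀ v, v ∉ S → y ∈ Ov v ∧ y⁻¹ ∈ Ov v) → ∀ v, v ∉ S →
          ((A : Qbar) * y ∈ Ov v ∧ ((A : Qbar) * y)⁻¹ ∈ Ov v) := by
      intro A y hA hAl hAi hy0 hyK hyv v hv
      have hNv : ((N₀ : ℕ) : Qbar)⁻¹ ∈ Ov v := hgood v hv _ (by simp [s])
      refine ⟨(Ov v).mul_mem (hAl.mem _ hNv) (hyv v hv).1, ?_⟩
      rw [mul_inv, ← Rat.cast_inv]
      exact (Ov v).mul_mem (hAi.mem _ hNv) (hyv v hv).2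
    have h1 := hmem A₁ y₁ hA₁0 hA₁l hA₁i hy₁0 hy₁K hy₁
    have h2 := hmem A₂ y₂ hA₂0 hA₂l hA₂i hy₂0 hy₂K hy₂
    have h3 := hmem A₃ y₃ hA₃0 hA₃l hA₃i hy₃0 hy₃K hy₃
    have hz₁ : (A₁ : Qbar) * y₁ ≠ 0 := mul_ne_zero (hQ _ hA₁0) hy₁0
    have hz₂ : (A₂ : Qbar) * y₂ ≠ 0 := mul_ne_zero (hQ _ hA₂0) hy₂0
    have hz₃ : (A₃ : Qbar) * y₃ ≠ 0 := mul_ne_zero (hQ _ hA₃0) hy₃0
    have hratK : ∀ A : ℚ, ((A : ℚ) : Qbar) ∈ K := fun A => SubfieldClass.ratCast_mem K A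
    have hgs : ∀ (z w : Qbar) (hz : z ≠ 0) (hw : w ≠ 0), z ∈ K → w ∈ K →
        (∀ v, v ∉ S → z ∈ Ov v ∧ z⁻¹ ∈ Ov v) → (∀ v, v ∉ S → w ∈ Ov v ∧ w⁻¹ ∈ Ov v) →
        Units.mk0 (-(z / w)) (neg_ne_zero.2 (div_ne_zero hz hw)) ∈ GS S := by
      intro z w hz hw hzK hwK hzv hwv
      refine mem_GS _ (K.neg_mem (K.div_mem hzK hwK)) fun v hv => ?_
      refine ⟨?_, ?_⟩
      · rw [div_eq_mul_inv]
        exact (Ov v).neg_mem ((Ov v).mul_mem (hzv v hv).1 (hwv v hv).2)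
      · rw [div_eq_mul_inv, inv_neg, mul_inv, inv_inv]
        exact (Ov v).neg_mem ((Ov v).mul_mem (hzv v hv).2 (hwv v hv).1)
    have hg₁ := hgs _ _ hz₁ hz₃ (K.mul_mem (hratK _) hy₁K) (K.mul_mem (hratK _) hy₃K) h1 h3
    have hg₂ := hgs _ _ hz₂ hz₃ (K.mul_mem (hratK _) hy₂K) (K.mul_mem (hratK _) hy₃K) h2 h3
    have hq0 : (c₀ : Qbar) + d₀ * ζ ≠ 0 := hw
    have e₁ : (A₁ : Qbar) * y₁ = (c₀ + d₀ * ζ) * (((α₂ - α₃ : ℚ) : Qbar) * (α₁ - t)) := by
      have := hdQ α₁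
      rw [hy₁e, hA₁]
      push_cast
      field_simp
    have e₂ : (A₂ : Qbar) * y₂ = (c₀ + d₀ * ζ) * (((α₃ - α₁ : ℚ) : Qbar) * (α₂ - t)) := by
      have := hdQ α₂
      rw [hy₂e, hA₂]
      push_cast
      field_simp
    have e₃ : (A₃ : Qbar) * y₃ = (c₀ + d₀ * ζ) * (((α₁ - α₂ : ℚ) : Qbar) * (α₃ - t)) := by
      have := hdQ α₃
      rw [hy₃e, hA₃]
      push_cast
      field_simp
    refine ⟨_, hg₁, _, hg₂, ?_, ?_⟩
    · rw [Units.val_mk0, e₁, e₃, mul_div_mul_left _ _ hq0]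
    · rw [Units.val_mk0, Units.val_mk0]
      have hsum : (A₁ : Qbar) * y₁ + A₂ * y₂ + A₃ * y₃ = 0 := by
        rw [e₁, e₂, e₃]
        push_cast
        ring
      have h4 : -((A₁ : Qbar) * y₁ / (A₃ * y₃)) + -((A₂ : Qbar) * y₂ / (A₃ * y₃)) =
          -(((A₁ : Qbar) * y₁ + A₂ * y₂) / (A₃ * y₃)) := by
        rw [add_div, neg_add]
      rw [h4]
      have h5 : (A₁ : Qbar) * y₁ + A₂ * y₂ = -(A₃ * y₃) := by
        linear_combination hsum
      rw [h5, neg_div, div_self hz₃, neg_neg]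
  · have hne : ∀ t ∈ {t : Qbar | ∃ a b c d : ℤ, (c : Qbar) + d * ζ ≠ 0 ∧
        t = (a + b * ζ) / (c + d * ζ) ∧
        ∀ α ∈ ({α₁, α₂, α₃} : Set ℚ), ∀ p : ℕ, p.Prime → D < p →
        ¬ (p : ℤ) ∣ resultant (lp (U4 a c α) (V4 b d α)) (cyclotomic n ℤ)},
        (α₃ : Qbar) - t ≠ 0 := by
      rintro t ⟨a₀, b₀, c₀, d₀, hw, ht, hbad⟩ h0
      set U : ℤ := U4 a₀ c₀ α₃ with hU
      set V : ℤ := V4 b₀ d₀ α₃ with hV
      obtain ⟨a, b, -, -, hab⟩ := exists_mul_add_mul_eq_C_resultant (lp U V) (cyclotomic n ℤ)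
        (m := (lp U V).natDegree) (n := (cyclotomic n ℤ).natDegree) le_rfl le_rfl
        (Or.inr (by rw [natDegree_cyclotomic]; exact (Nat.totient_pos.2 hn).ne'))
      set R : ℤ := resultant (lp U V) (cyclotomic n ℤ) with hR
      have h1 := congrArg (aeval ζ) hab
      rw [map_add, map_mul, map_mul, hζ, zero_mul, add_zero, aeval_C, lp, map_sub, map_mul, aeval_C,
        aeval_C, aeval_X] at h1
      have h2 : ((U : Qbar) - V * ζ) * aeval ζ a = (R : Qbar) := by simpa using h1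
      have h3 : (U : Qbar) - V * ζ = (α₃.den : Qbar) * (c₀ + d₀ * ζ) * ((α₃ : Qbar) - t) := by
        rw [hU, hV, ht]
        exact UV4 a₀ b₀ c₀ d₀ α₃ ζ hw
      rw [h3, h0, mul_zero, zero_mul] at h2
      have h4 : R = 0 := by exact_mod_cast h2.symm
      obtain ⟨p, hpD, hp⟩ := Nat.exists_infinite_primes (D + 1)
      exact hbad α₃ (by simp) p hp (by omega) (by rw [← hR, h4]; exact dvd_zero _)
    intro t ht t' ht' he
    have h1 := hne t ht
    have h2 := hne t' ht'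
    have h23' : ((α₂ - α₃ : ℚ) : Qbar) ≠ 0 := by exact_mod_cast sub_ne_zero.2 h23
    have h12' : ((α₁ - α₂ : ℚ) : Qbar) ≠ 0 := by exact_mod_cast sub_ne_zero.2 h12
    have h13' : (α₁ : Qbar) - α₃ ≠ 0 := by
      have : ((α₁ - α₃ : ℚ) : Qbar) ≠ 0 := by exact_mod_cast sub_ne_zero.2 h13
      rwa [Rat.cast_sub] at this
    have he' : -((((α₂ - α₃ : ℚ) : Qbar) * (α₁ - t)) / (((α₁ - α₂ : ℚ) : Qbar) * (α₃ - t))) =
      -((((α₂ - α₃ : ℚ) : Qbar) * (α₁ - t')) / (((α₁ - α₂ : ℚ) : Qbar) * (α₃ - t'))) := he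
    rw [neg_inj, div_eq_div_iff (mul_ne_zero h12' h1) (mul_ne_zero h12' h2)] at he'
    have h3 : ((α₂ - α₃ : ℚ) : Qbar) * ((α₁ - α₂ : ℚ) : Qbar) * (((α₁ : Qbar) - α₃) * (t - t')) = 0 := by
      linear_combination he'
    have h4 := (mul_eq_zero.1 h3).resolve_left (mul_ne_zero h23' h12')
    exact sub_eq_zero.1 ((mul_eq_zero.1 h4).resolve_left h13')

theorem smallMC (ζ : ℂ) (n : ℕ) (hn : 0 < n) (hζ : IsPrimitiveRoot ζ n) (α₁ α₂ α₃ : ℚ)
    (h12 : α₁ ≠ α₂) (h13 : α₁ ≠ α₃) (h23 : α₂ ≠ α₃) (D : ℕ) :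
    {t : ℂ | ∃ a b c d : ℤ, (c : ℂ) + d * ζ ≠ 0 ∧ t = (a + b * ζ) / (c + d * ζ) ∧
      ∀ α ∈ ({α₁, α₂, α₃} : Set ℚ), ∀ p : ℕ, p.Prime → D < p →
        ¬ (p : ℤ) ∣ resultant (lp (U4 a c α) (V4 b d α)) (cyclotomic n ℤ)}.Finite := by
  have h1 : aeval ζ (cyclotomic n ℤ) = 0 := by
    rw [aeval_def, ← eval_map, map_cyclotomic]
    exact hζ.isRoot_cyclotomic hn
  obtain ⟨φ, β, hβ, hβ0⟩ := exists_qbar (cyclotomic_ne_zero n ℤ) h1
  refine ((smallM β n hn hβ0 α₁ α₂ α₃ h12 h13 h23 D).image φ).subset ?_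
  rintro t ⟨a, b, c, d, hw, ht, hbad⟩
  refine ⟨(a + b * β) / (c + d * β), ⟨a, b, c, d, ?_, rfl, hbad⟩, ?_⟩
  · intro h0
    apply hw
    have h2 := congrArg φ h0
    rw [map_add, map_mul, map_intCast, map_intCast, hβ, map_zero] at h2
    exact h2
  · rw [map_div₀, map_add, map_mul, map_intCast, map_intCast, map_add, map_mul, map_intCast,
      map_intCast, hβ, ht]

/-- `t = (a + b ζ) / (c + d ζ)` with integers `a, b, c, d`, `a d - b c ≠ 0`, and a root of unity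
`ζ`, such that every prime number `p > R` which divides `a d - b c` divides exactly one of the
columns `(a, c)` and `(b, d)`. -/
def IsMoeb (R : ℕ) (t : ℂ) : Prop :=
  ∃ (a b c d : ℤ) (ζ : ℂ), a * d - b * c ≠ 0 ∧ (∃ n : ℕ, 0 < n ∧ ζ ^ n = 1) ∧
    (c : ℂ) + d * ζ ≠ 0 ∧ t = (a + b * ζ) / (c + d * ζ) ∧
    ∀ p : ℕ, p.Prime → R < p → (p : ℤ) ∣ a * d - b * c →
      ((p : ℤ) ∣ a ∧ (p : ℤ) ∣ c ∧ ¬ ((p : ℤ) ∣ b ∧ (p : ℤ) ∣ d)) ∨
      ((p : ℤ) ∣ b ∧ (p : ℤ) ∣ d ∧ ¬ ((p : ℤ) ∣ a ∧ (p : ℤ) ∣ c))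

theorem alg_of_moeb (R : ℕ) (t : ℂ) (h : IsMoeb R t) : IsAlgebraic ℤ t := by
  obtain ⟨a, b, c, d, ζ, -, ⟨n, hn, hζ⟩, -, rfl, -⟩ := h
  have h1 : IsIntegral ℤ ζ := by
    refine ⟨X ^ n - C 1, monic_X_pow_sub_C 1 hn.ne', ?_⟩
    rw [eval₂_sub, eval₂_X_pow, hζ, eval₂_C, map_one, sub_self]
  have h2 : ∀ x y : ℤ, IsAlgebraic ℤ ((x : ℂ) + y * ζ) := fun x y =>
    (isAlgebraic_intCast x).add ((isAlgebraic_intCast y).mul h1.isAlgebraic)
  rw [div_eq_mul_inv]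
  exact (h2 a b).mul (h2 c d).inv

theorem nearM {G : ℤ[X]} {n : ℕ} (hn : 0 < n) {ζ t : ℂ} (hζ : IsPrimitiveRoot ζ n)
    (a b c d : ℤ) (hw : (c : ℂ) + d * ζ ≠ 0) (ht : t = (a + b * ζ) / (c + d * ζ))
    (hGt : aeval t G = 0) (α : ℚ) (p : ℕ) (hp : p.Prime)
    (hcol : (p : ℤ) ∣ a * d - b * c →
      ((p : ℤ) ∣ a ∧ (p : ℤ) ∣ c ∧ ¬ ((p : ℤ) ∣ b ∧ (p : ℤ) ∣ d)) ∨
      ((p : ℤ) ∣ b ∧ (p : ℤ) ∣ d ∧ ¬ ((p : ℤ) ∣ a ∧ (p : ℤ) ∣ c)))
    (hd : (p : ℤ) ∣ resultant (lp (U4 a c α) (V4 b d α)) (cyclotomic n ℤ)) :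
    (p : ℤ) ∣ Nv G α := by
  have : Fact p.Prime := ⟨hp⟩
  obtain ⟨z, hz, hz0⟩ := common_zero p hd
  have hk : CharP (AlgebraicClosure (ZMod p)) p := inferInstance
  have hcast : ∀ x : ℤ, (x : AlgebraicClosure (ZMod p)) = 0 ↔ (p : ℤ) ∣ x := fun x =>
    CharP.intCast_eq_zero_iff (AlgebraicClosure (ZMod p)) p x
  have hzn : z ≠ 0 := by
    rintro rfl
    have h1 : (X ^ n - 1 : (AlgebraicClosure (ZMod p))[X]).eval 0 = 0 := by
      obtain ⟨q, hq⟩ := cyclotomic.dvd_X_pow_sub_one n (AlgebraicClosure (ZMod p))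
      rw [hq, eval_mul, hz, zero_mul]
    rw [eval_sub, eval_pow, eval_X, eval_one, zero_pow hn.ne', zero_sub] at h1
    exact one_ne_zero (neg_eq_zero.1 h1)
  refine near_m (P := C a + C b * X) (Q := C c + C d * X) hn hζ ?_ ?_ hGt α
    (h := lp (U4 a c α) (V4 b d α)) ?_ p hp z hz hz0 ?_
  · rw [map_add, map_mul, aeval_C, aeval_C, aeval_X]
    simpa using hw
  · rw [map_add, map_mul, aeval_C, aeval_C, aeval_X, map_add, map_mul, aeval_C, aeval_C, aeval_X]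
    simpa using ht
  · refine dvd_of_eq ?_
    rw [lp, U4, V4]
    simp only [C_sub, C_mul]
    ring
  · intro hQ hP
    rw [map_add, map_mul, aeval_C, aeval_C, aeval_X] at hQ hP
    simp only [algebraMap_int_eq, eq_intCast] at hQ hP
    have hdet : ((a * d - b * c : ℤ) : AlgebraicClosure (ZMod p)) = 0 := by
      push_cast
      linear_combination (d : AlgebraicClosure (ZMod p)) * hP - b * hQ
    rcases hcol ((hcast _).1 hdet) with ⟨h1, h2, h3⟩ | ⟨h1, h2, h3⟩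
    · apply h3
      rw [(hcast a).2 h1, zero_add] at hP
      rw [(hcast c).2 h2, zero_add] at hQ
      exact ⟨(hcast b).1 ((mul_eq_zero.1 hP).resolve_right hzn),
        (hcast d).1 ((mul_eq_zero.1 hQ).resolve_right hzn)⟩
    · apply h3
      rw [(hcast b).2 h1, zero_mul, add_zero] at hP
      rw [(hcast d).2 h2, zero_mul, add_zero] at hQ
      exact ⟨(hcast a).1 hP, (hcast c).1 hQ⟩

theorem lin_one {x y : ℤ} {α : ℚ} (hxy : ¬ (x = 0 ∧ y = 0)) (h : (α.num : ℚ) * y = α.den * x) :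
    α = (x : ℚ) / y := by
  have hd : (α.den : ℚ) ≠ 0 := by exact_mod_cast α.den_ne_zero
  have h1 : α * y = x := by
    have h2 : (α.den : ℚ) * (α * y) = α.den * x := by
      rw [← h, ← mul_assoc, Rat.den_mul_eq_num]
    exact mul_left_cancel₀ hd h2
  have hy : (y : ℚ) ≠ 0 := by
    intro h0
    rw [h0, mul_zero] at h1
    exact hxy ⟨by exact_mod_cast h1.symm, by exact_mod_cast h0⟩
  rw [eq_div_iff hy, h1]

theorem four (a b c d : ℤ) (hdet : a * d - b * c ≠ 0) (α : ℚ)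
    (h : U4 a c α = 0 ∨ V4 b d α = 0 ∨ |U4 a c α| = |V4 b d α|) :
    α = (a : ℚ) / c ∨ α = (b : ℚ) / d ∨ α = ((a + b : ℤ) : ℚ) / (c + d : ℤ) ∨
      α = ((a - b : ℤ) : ℚ) / (c - d : ℤ) := by
  rcases h with h | h | h
  · left
    refine lin_one ?_ ?_
    · rintro ⟨rfl, rfl⟩
      apply hdet
      ring
    · rw [U4, sub_eq_zero] at h
      exact_mod_cast h
  · right; left
    refine lin_one ?_ ?_
    · rintro ⟨rfl, rfl⟩
      apply hdet
      ring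
    · rw [V4, sub_eq_zero] at h
      exact_mod_cast h.symm
  · rcases abs_eq_abs.1 h with h | h
    · right; right; left
      refine lin_one ?_ ?_
      · rintro ⟨h1, h2⟩
        apply hdet
        have h3 : b = -a := by linarith
        have h4 : d = -c := by linarith
        rw [h3, h4]
        ring
      · rw [U4, V4] at h
        have h1 : α.num * (c + d) = α.den * (a + b) := by linarith
        exact_mod_cast h1
    · right; right; right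
      refine lin_one ?_ ?_
      · rintro ⟨h1, h2⟩
        apply hdet
        have h3 : b = a := by linarith
        have h4 : d = c := by linarith
        rw [h3, h4]
        ring
      · rw [U4, V4] at h
        have h1 : α.num * (c - d) = α.den * (a - b) := by linarith
        exact_mod_cast h1

/-- For all but finitely many of the numbers `t = (a + b ζ) / (c + d ζ)` the values of the minimal
polynomial at all but four of the `α` have a large prime factor. -/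
theorem finite_badM (R D : ℕ) {M L : ℕ} (hM : L + 4 ≤ M) (α : Fin M → ℚ)
    (hα : Function.Injective α) :
    {t : ℂ | IsMoeb R t ∧ ¬ ∃ f : Fin L → Fin M, Function.Injective f ∧
      ∃ G : ℤ[X], Irreducible G ∧ aeval t G = 0 ∧
      ∀ l, ∃ p : ℕ, p.Prime ∧ D < p ∧ (p : ℤ) ∣ Nv G (α (f l))}.Finite := by
  classical
  obtain ⟨N, hN0, hN⟩ := big (max D R)
  have hfin : (⋃ n ∈ Finset.range N, ⋃ ζ ∈ primitiveRoots n ℂ, ⋃ l : Fin M × Fin M × Fin M,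
      {t : ℂ | 0 < n ∧ l.1 ≠ l.2.1 ∧ l.1 ≠ l.2.2 ∧ l.2.1 ≠ l.2.2 ∧ ∃ a b c d : ℤ,
        (c : ℂ) + d * ζ ≠ 0 ∧ t = (a + b * ζ) / (c + d * ζ) ∧
        ∀ x ∈ ({α l.1, α l.2.1, α l.2.2} : Set ℚ), ∀ p : ℕ, p.Prime → max D R < p →
        ¬ (p : ℤ) ∣ resultant (lp (U4 a c x) (V4 b d x)) (cyclotomic n ℤ)}).Finite := by
    refine Set.Finite.biUnion (Finset.finite_toSet _) fun n _ =>
      Set.Finite.biUnion (Finset.finite_toSet _) fun ζ hζ => Set.finite_iUnion fun l => ?_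
    by_cases h : 0 < n ∧ l.1 ≠ l.2.1 ∧ l.1 ≠ l.2.2 ∧ l.2.1 ≠ l.2.2
    · obtain ⟨hn, h1, h2, h3⟩ := h
      refine (smallMC ζ n hn ((mem_primitiveRoots hn).1 (Finset.mem_coe.1 hζ)) (α l.1) (α l.2.1)
        (α l.2.2) (hα.ne h1) (hα.ne h2) (hα.ne h3) (max D R)).subset ?_
      rintro t ⟨-, -, -, -, ht⟩
      exact ht
    · refine Set.finite_empty.subset ?_
      rintro t ⟨h1, h2, h3, h4, -⟩
      exact h ⟨h1, h2, h3, h4⟩
  refine hfin.subset ?_
  rintro t ⟨htr, hbad⟩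
  obtain ⟨G, hG, hGt⟩ := exists_irr (alg_of_moeb R t htr)
  obtain ⟨a, b, c, d, ζ, hdet, ⟨m, hm, hζm⟩, hw, ht, hcol⟩ := htr
  have hprim : IsPrimitiveRoot ζ (orderOf ζ) := IsPrimitiveRoot.orderOf _
  have hpos : 0 < orderOf ζ := orderOf_pos_iff.2 (isOfFinOrder_iff_pow_eq_one.2 ⟨m, hm, hζm⟩)
  set n := orderOf ζ with hn
  set Gd : Finset (Fin M) := Finset.univ.filter fun l => ∃ p : ℕ, p.Prime ∧ D < p ∧
    (p : ℤ) ∣ Nv G (α l) with hGd
  have hGdL : Gd.card < L := by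
    by_contra hc
    push Not at hc
    obtain ⟨T, hT, hTc⟩ := Finset.exists_subset_card_eq hc
    apply hbad
    refine ⟨fun l => T.orderEmbOfFin hTc l, (T.orderEmbOfFin hTc).injective, G, hG, hGt,
      fun l => ?_⟩
    have h1 := hT (T.orderEmbOfFin_mem hTc l)
    exact (Finset.mem_filter.1 h1).2
  have hBd : 4 < Gdᶜ.card := by
    rw [Finset.card_compl, Fintype.card_fin]
    omega
  have hBdp : ∀ l ∈ Gdᶜ, ∀ p : ℕ, p.Prime → max D R < p →
      ¬ (p : ℤ) ∣ resultant (lp (U4 a c (α l)) (V4 b d (α l))) (cyclotomic n ℤ) := by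
    intro l hl p hp hpD hd
    rw [Finset.mem_compl] at hl
    apply hl
    exact Finset.mem_filter.2 ⟨Finset.mem_univ _, p, hp, lt_of_le_of_lt (le_max_left _ _) hpD,
      nearM hpos hprim a b c d hw ht hGt (α l) p hp
        (hcol p hp (lt_of_le_of_lt (le_max_right _ _) hpD)) hd⟩
  by_cases hnN : N ≤ n
  · exfalso
    have h1 : Gdᶜ.image α ⊆ {(a : ℚ) / c, (b : ℚ) / d, ((a + b : ℤ) : ℚ) / (c + d : ℤ),
        ((a - b : ℤ) : ℚ) / (c - d : ℤ)} := by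
      intro x hx
      obtain ⟨l, hl, rfl⟩ := Finset.mem_image.1 hx
      have h2 : U4 a c (α l) = 0 ∨ V4 b d (α l) = 0 ∨ |U4 a c (α l)| = |V4 b d (α l)| := by
        by_contra hc
        push Not at hc
        obtain ⟨p, hp, hpD, hd⟩ := hN n hnN _ _ hc.1 hc.2.1 hc.2.2
        exact hBdp l hl p hp hpD hd
      have h3 := four a b c d hdet (α l) h2
      simp only [Finset.mem_insert, Finset.mem_singleton]
      exact h3
    have h2 := Finset.card_le_card h1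
    rw [Finset.card_image_of_injective _ hα] at h2
    have h3 : ({(a : ℚ) / c, (b : ℚ) / d, ((a + b : ℤ) : ℚ) / (c + d : ℤ),
        ((a - b : ℤ) : ℚ) / (c - d : ℤ)} : Finset ℚ).card ≤ 4 := Finset.card_le_four
    omega
  · obtain ⟨l₁, hl₁, l₂, hl₂, l₃, hl₃, h12, h13, h23⟩ : ∃ a ∈ Gdᶜ, ∃ b ∈ Gdᶜ, ∃ c ∈ Gdᶜ,
        a ≠ b ∧ a ≠ c ∧ b ≠ c := Finset.two_lt_card.1 (by omega)
    refine Set.mem_biUnion (Finset.mem_coe.2 (Finset.mem_range.2 (not_le.1 hnN))) ?_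
    refine Set.mem_biUnion (Finset.mem_coe.2 ((mem_primitiveRoots hpos).2 hprim)) ?_
    refine Set.mem_iUnion.2 ⟨(l₁, l₂, l₃), hpos, h12, h13, h23, a, b, c, d, hw, ht, ?_⟩
    intro x hx
    simp only [Set.mem_insert_iff, Set.mem_singleton_iff] at hx
    rcases hx with rfl | rfl | rfl
    · exact hBdp l₁ hl₁
    · exact hBdp l₂ hl₂
    · exact hBdp l₃ hl₃

/-- The numbers `a + b ζ`, `a` rational, `b ≠ 0` an integer, are among these numbers. -/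
theorem moeb_of_tr {t : ℂ} (h : IsTr t) : IsMoeb 0 t := by
  obtain ⟨q, r, ζ, hr, hζ, ht⟩ := h
  have hqd : ((q.den : ℕ) : ℤ) ≠ 0 := by exact_mod_cast q.den_ne_zero
  have hqd' : ((q.den : ℕ) : ℂ) ≠ 0 := by exact_mod_cast q.den_ne_zero
  refine ⟨q.num, q.den * r, q.den, 0, ζ, ?_, hζ, ?_, ?_, ?_⟩
  · rw [mul_zero, zero_sub, neg_ne_zero]
    exact mul_ne_zero (mul_ne_zero hqd hr) hqd
  · simpa using hqd'
  · rw [ht]
    have hqq : (q : ℂ) * (q.den : ℂ) = (q.num : ℂ) := by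
      exact_mod_cast congrArg (Rat.cast : ℚ → ℂ) (Rat.mul_den_eq_num q)
    push_cast
    rw [← hqq, zero_mul, add_zero]
    field_simp
  · intro p hp _ hdvd
    right
    have hcop : ¬ ((p : ℤ) ∣ q.num ∧ (p : ℤ) ∣ ((q.den : ℕ) : ℤ)) := by
      rintro ⟨h1, h2⟩
      have h3 : p ∣ Nat.gcd q.num.natAbs q.den :=
        Nat.dvd_gcd (Int.natCast_dvd.1 h1) (by exact_mod_cast h2)
      rw [q.reduced] at h3
      exact hp.one_lt.ne' (Nat.dvd_one.1 h3)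
    refine ⟨?_, dvd_zero _, hcop⟩
    rw [mul_zero, zero_sub, dvd_neg] at hdvd
    rcases (Nat.prime_iff_prime_int.1 hp).dvd_or_dvd hdvd with h1 | h1
    · exact h1
    · exact Dvd.dvd.mul_right h1 _

end Pool.Agent.V1138.AT
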